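import Mathlib
import Pool.Agent.H217R3.AKV.Affine

set_option autoImplicit false

/-! # The arithmetic Kakeya conjecture in `ℝ^d` for additively structured families of progressions

`B` contains the `k`-term progressions `a(r), a(r) + r, …, a(r) + (k-1) r` for all `r ∈ [0,1]^d`.
If at scale `1/N` the rounded graph of the choice function `a` has `N ^ (d (3 - η))` additive
quadruples, then `B` cannot be covered by fewer than `N ^ (d - ε)` balls of radius `1/N`.  Hence `B` has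
upper Minkowski dimension at least `d - ε` if this happens at infinitely many scales, for instance if
at infinitely many scales `a` is within `1/N` of some affine map (depending on `N`) at
`N ^ (d - η)` of the `N ^ d` grid points.

Ingredients: Plünnecke–Ruzsa inequality (Mathlib), a counting lemma for linear relations, the
Balog–Szemerédi–Gowers theorem (`Pool.Agent.H217R3.AK.Bsg`), exact rounding of progressions. -/

open Finset
open scoped Pointwise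

namespace Pool.Agent.Results.MP_4b405e_nt.StructuredProgressions

/-- the grid `{0, …, N-1}^d` -/
noncomputable def grid (d N : ℕ) : Finset (Fin d → ℤ) :=
  Fintype.piFinset (fun _ => Finset.Ico (0 : ℤ) N)

/-- the point `v / N` -/
noncomputable def pt {d : ℕ} (N : ℕ) (v : Fin d → ℤ) : EuclideanSpace ℝ (Fin d) :=
  WithLp.toLp 2 (fun i => (v i : ℝ) / N)

/-- the rounded graph `{(⌊N a(v/N)⌋, v) : v ∈ grid}` of `a` at scale `1/N` -/
noncomputable def graph {d : ℕ} (a : EuclideanSpace ℝ (Fin d) → EuclideanSpace ℝ (Fin d)) (N : ℕ) :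
    Finset ((Fin d → ℤ) × (Fin d → ℤ)) :=
  (grid d N).image (fun v => ((fun i => ⌊(N : ℝ) * a (pt N v) i⌋), v))

/-- `B` contains the progression `a r, a r + r, …, a r + (k-1) r` for every `r ∈ [0,1]^d` -/
def Contains {d : ℕ} (k : ℕ) (B : Set (EuclideanSpace ℝ (Fin d)))
    (a : EuclideanSpace ℝ (Fin d) → EuclideanSpace ℝ (Fin d)) : Prop :=
  ∀ r : EuclideanSpace ℝ (Fin d), (∀ i, r i ∈ Set.Icc (0 : ℝ) 1) →
    ∀ j : ℕ, j < k → a r + (j : ℝ) • r ∈ B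

/-- the upper Minkowski dimension of `B` is at least `s` up to constants: at arbitrarily small scales
`δ`, at least `δ ^ (-s)` balls of radius `δ` are needed to cover `B` -/
def DimAtLeast {d : ℕ} (B : Set (EuclideanSpace ℝ (Fin d))) (s : ℝ) : Prop :=
  ∀ δ₀ : ℝ, 0 < δ₀ → ∃ δ : ℝ, 0 < δ ∧ δ < δ₀ ∧
    ∀ S : Finset (EuclideanSpace ℝ (Fin d)), B ⊆ (⋃ x ∈ S, Metric.ball x δ) →
      δ ^ (-s) ≤ (S.card : ℝ)

theorem result :
    -- the discrete form
    (∀ d n : ℕ, ∃ η : ℝ, 0 < η ∧ ∃ Q : ℝ, 0 < Q ∧ ∀ A : Finset ((Fin d → ℤ) × (Fin d → ℤ)),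
      A.Nonempty →
      Set.InjOn (Prod.snd : (Fin d → ℤ) × (Fin d → ℤ) → (Fin d → ℤ))
        (A : Set ((Fin d → ℤ) × (Fin d → ℤ))) →
      (A.card : ℝ) ^ (3 - η) ≤ (A.addEnergy A : ℕ) → ∀ R : ℝ,
      (∀ j : Fin (n + 2), ((A.image (fun z => z.1 + ((j : ℕ) : ℤ) • z.2)).card : ℝ) ≤ R) →
      (A.card : ℝ) ^ n ≤ Q * R ^ (n + 2)) ∧
    -- one scale
    (∀ (d : ℕ) (ε : ℝ), 0 < ε → ∃ k : ℕ, ∃ η : ℝ, 0 < η ∧ ∃ N₁ : ℕ, 1 ≤ N₁ ∧
      ∀ (B : Set (EuclideanSpace ℝ (Fin d)))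
        (a : EuclideanSpace ℝ (Fin d) → EuclideanSpace ℝ (Fin d)), Contains k B a →
        ∀ N : ℕ, N₁ ≤ N →
        (N : ℝ) ^ ((d : ℝ) * (3 - η)) ≤ ((graph a N).addEnergy (graph a N) : ℕ) →
        ∀ S : Finset (EuclideanSpace ℝ (Fin d)), B ⊆ (⋃ x ∈ S, Metric.ball x (1 / (N : ℝ))) →
          (N : ℝ) ^ ((d : ℝ) - ε) ≤ S.card) ∧
    -- infinitely many scales
    (∀ (d : ℕ) (ε : ℝ), 0 < ε → ∃ k : ℕ, ∃ η : ℝ, 0 < η ∧
      ∀ (B : Set (EuclideanSpace ℝ (Fin d)))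
        (a : EuclideanSpace ℝ (Fin d) → EuclideanSpace ℝ (Fin d)), Contains k B a →
        (∀ N₀ : ℕ, ∃ N : ℕ, N₀ ≤ N ∧
          (N : ℝ) ^ ((d : ℝ) * (3 - η)) ≤ ((graph a N).addEnergy (graph a N) : ℕ)) →
        DimAtLeast B ((d : ℝ) - ε)) ∧
    -- choices that are nearly affine on many grid points
    (∀ d : ℕ, 1 ≤ d → ∀ ε : ℝ, 0 < ε → ∃ k : ℕ, ∃ η : ℝ, 0 < η ∧
      ∀ (B : Set (EuclideanSpace ℝ (Fin d)))
        (a : EuclideanSpace ℝ (Fin d) → EuclideanSpace ℝ (Fin d)), Contains k B a →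
        (∀ N₀ : ℕ, ∃ N : ℕ, N₀ ≤ N ∧
          ∃ (L : EuclideanSpace ℝ (Fin d) →ₗ[ℝ] EuclideanSpace ℝ (Fin d))
            (w : EuclideanSpace ℝ (Fin d)) (D : Finset (Fin d → ℤ)), D ⊆ grid d N ∧
            (N : ℝ) ^ ((d : ℝ) - η) ≤ D.card ∧
            ∀ v ∈ D, ∀ i, |a (pt N v) i - (L (pt N v) + w) i| ≤ 1 / (N : ℝ)) →
        DimAtLeast B ((d : ℝ) - ε)) :=
  ⟨Pool.Agent.H217R3.AKV.disc, Pool.Agent.H217R3.AKV.final, Pool.Agent.H217R3.AKV.final2,
    Pool.Agent.H217R3.AKV.final3⟩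

end Pool.Agent.Results.MP_4b405e_nt.StructuredProgressions
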